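import Pool.Agent.Work.MP_1a989c_pr.Basic

set_option autoImplicit false

namespace Pool.Agent.DProcess

open Classical

noncomputable section

variable {V : Type} [Fintype V]

/-- The target event. -/
def target (V : Type) [Fintype V] : Set (SimpleGraph V) :=
  {G | G.IsRegularOfDegree 3 ∧ ¬ G.Connected}

/-- The total deficit. -/
def deficit (G : SimpleGraph V) : ℕ := ∑ v, (3 - G.degree v)

theorem sum_mem_sym2 (e : Sym2 V) (hd : ¬ e.IsDiag) : (∑ v : V, if v ∈ e then 1 else 0) = 2 := by
  induction e with
  | _ x y =>
    have hxy : x ≠ y := by simpa using hd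
    have : (Finset.univ.filter (fun v : V => v ∈ s(x, y))) = {x, y} := by
      ext v
      simp [Sym2.mem_iff]
    rw [← Finset.sum_filter, this]
    simp [Finset.card_pair hxy]

theorem degree_le_addEdge {G : SimpleGraph V} {e : Sym2 V} (hG : ∀ v, G.degree v ≤ 3)
    (h : IsAvailable 3 G e) (v : V) : (addEdge G e).degree v ≤ 3 := by
  rw [degree_addEdge G e h.1 h.2.1]
  split_ifs with hv
  · have := h.2.2 v hv
    omega
  · exact hG v

theorem deficit_addEdge {G : SimpleGraph V} {e : Sym2 V} (h : IsAvailable 3 G e) :
    deficit (addEdge G e) + 2 = deficit G := by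
  unfold deficit
  rw [← sum_mem_sym2 e h.1, ← Finset.sum_add_distrib]
  apply Finset.sum_congr rfl
  intro v _
  rw [degree_addEdge G e h.1 h.2.1]
  split_ifs with hv
  · have := h.2.2 v hv
    omega
  · omega

theorem pr_of_empty (R : Set (SimpleGraph V)) (G : SimpleGraph V)
    (h : ¬ (available 3 G).Nonempty) (k : ℕ) : pr 3 R k G = if G ∈ R then 1 else 0 := by
  induction k with
  | zero => exact pr_zero 3 R G
  | succ k ih => rw [pr_succ_of_empty 3 R k G h, ih]

omit [Fintype V] in
theorem mem_of_reachable {G : SimpleGraph V} {S : Finset V}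
    (hcl : ∀ u ∈ S, ∀ v, G.Adj u v → v ∈ S) {u v : V} (hu : u ∈ S) (h : G.Reachable u v) :
    v ∈ S := by
  obtain ⟨w⟩ := h
  induction w with
  | nil => exact hu
  | cons hadj _ ih => exact ih (hcl _ hu _ hadj)

/-- If `S` has four vertices, is closed under adjacency and all other vertices are saturated, and
no pair is available, the graph is in the target. -/
theorem mem_target_of_closed {G : SimpleGraph V} {S : Finset V} (hS : S.card = 4)
    (hV : 4 < Fintype.card V) (hout : ∀ v, v ∉ S → G.degree v = 3)
    (hcl : ∀ u ∈ S, ∀ v, G.Adj u v → v ∈ S)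
    (h : ¬ (available 3 G).Nonempty) : G ∈ target V := by
  have hsub : ∀ v ∈ S, G.neighborFinset v ⊆ S.erase v := by
    intro v hv w hw
    rw [SimpleGraph.mem_neighborFinset] at hw
    exact Finset.mem_erase.2 ⟨hw.ne', hcl v hv w hw⟩
  have hdeg : ∀ v ∈ S, G.degree v ≤ 3 := by
    intro v hv
    have := Finset.card_le_card (hsub v hv)
    rw [Finset.card_erase_of_mem hv, hS] at this
    exact this
  refine ⟨?_, ?_⟩
  · intro v
    by_cases hv : v ∈ S
    · by_contra hne
      have hlt : G.degree v < 3 := lt_of_le_of_ne (hdeg v hv) hne
      have hex : ∃ w ∈ S.erase v, w ∉ G.neighborFinset v := by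
        by_contra hcon
        push Not at hcon
        have hle := Finset.card_le_card (show S.erase v ⊆ G.neighborFinset v from hcon)
        rw [Finset.card_erase_of_mem hv, hS, SimpleGraph.card_neighborFinset_eq_degree] at hle
        omega
      obtain ⟨w, hw, hnw⟩ := hex
      obtain ⟨hwv, hwS⟩ := Finset.mem_erase.1 hw
      have hnadj : ¬ G.Adj v w := by simpa using hnw
      have hlt' : G.degree w < 3 := by
        have h1 : G.neighborFinset w ⊆ (S.erase w).erase v := by
          intro x hx
          refine Finset.mem_erase.2 ⟨?_, hsub w hwS hx⟩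
          rintro rfl
          rw [SimpleGraph.mem_neighborFinset] at hx
          exact hnadj hx.symm
        have h2 := Finset.card_le_card h1
        rw [Finset.card_erase_of_mem (Finset.mem_erase.2 ⟨hwv.symm, hv⟩),
          Finset.card_erase_of_mem hwS, hS, SimpleGraph.card_neighborFinset_eq_degree] at h2
        omega
      apply h
      refine ⟨s(v, w), mem_available.2 ⟨?_, ?_, ?_⟩⟩
      · simpa using hwv.symm
      · simpa using hnadj
      · intro x hx
        rcases Sym2.mem_iff.1 hx with rfl | rfl
        · exact hlt
        · exact hlt'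
    · exact hout v hv
  · intro hc
    obtain ⟨u, hu⟩ := Finset.card_pos.1 (by rw [hS]; norm_num : 0 < S.card)
    have hex : ∃ x, x ∉ S := by
      by_contra hcon
      push Not at hcon
      have : S = Finset.univ := Finset.eq_univ_iff_forall.2 hcon
      rw [this, Finset.card_univ] at hS
      omega
    obtain ⟨x, hx⟩ := hex
    exact hx (mem_of_reachable hcl hu (hc.preconnected u x))

theorem pr_eq_one_of_closed (S : Finset V) (hS : S.card = 4) (hV : 4 < Fintype.card V) (k : ℕ) :
    ∀ G : SimpleGraph V, (∀ v, v ∉ S → G.degree v = 3) →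
      (∀ u ∈ S, ∀ v, G.Adj u v → v ∈ S) → deficit G ≤ 2 * k → pr 3 (target V) k G = 1 := by
  induction k with
  | zero =>
    intro G hout hcl hk
    have h : ¬ (available 3 G).Nonempty := by
      rintro ⟨e, he⟩
      have := deficit_addEdge (mem_available.1 he)
      omega
    rw [pr_of_empty _ _ h, if_pos (mem_target_of_closed hS hV hout hcl h)]
  | succ k ih =>
    intro G hout hcl hk
    by_cases h : (available 3 G).Nonempty
    · rw [pr_succ_of_nonempty 3 _ k G h]
      have : ∀ e ∈ available 3 G, pr 3 (target V) k (addEdge G e) = 1 := by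
        intro e he
        have he' := mem_available.1 he
        have hmem : ∀ v ∈ e, v ∈ S := by
          intro v hv
          by_contra hvS
          have h1 := he'.2.2 v hv
          have h2 := hout v hvS
          omega
        apply ih
        · intro v hv
          rw [degree_addEdge G e he'.1 he'.2.1, if_neg (fun hve => hv (hmem v hve)), add_zero]
          exact hout v hv
        · intro u hu v hadj
          rcases (addEdge_adj G e u v).1 hadj with h1 | ⟨h1, _⟩
          · exact hcl u hu v h1
          · exact hmem v (h1 ▸ Sym2.mem_mk_right u v)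
        · have := deficit_addEdge he'
          omega
      rw [Finset.sum_congr rfl this, Finset.sum_const, nsmul_eq_mul, mul_one]
      apply div_self
      have := Finset.card_pos.2 h
      positivity
    · rw [pr_of_empty _ _ h, if_pos (mem_target_of_closed hS hV hout hcl h)]

end

end Pool.Agent.DProcess
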