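import Pool.Agent.Work.MP_1a989c_pr.Main

set_option autoImplicit false

namespace Pool.Agent.DProcess

open Classical Filter

noncomputable section

/-- Power lower bound: `P(disconnected) ≥ C n^(-δ/2)`. -/
theorem power_lower (δ : ℝ) (hδ : 0 < δ) :
    ∃ C : ℝ, 0 < C ∧ ∃ N : ℕ, ∀ n : ℕ, N ≤ n → Even n →
      C * (n : ℝ) ^ (-(δ / 2)) ≤ condDisconnected n := by
  set r : ℝ := 16 / δ + 2 with hr
  set β : ℝ := 4 + δ / 2 with hβ
  have hr1 : 1 ≤ r := by
    have : 0 < 16 / δ := by positivity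
    linarith
  have hβ0 : 0 ≤ β := by positivity
  obtain ⟨K, hK1, hK2⟩ : ∃ K : ℕ, 16 ≤ K ∧ 112 / δ + 3 ≤ (K : ℝ) := by
    obtain ⟨K0, hK0⟩ := exists_nat_ge (112 / δ + 3)
    refine ⟨max 16 K0, le_max_left _ _, hK0.trans ?_⟩
    exact_mod_cast le_max_right 16 K0
  have hβr : β * (1 - 1 / r) = 4 + δ / 4 := by
    have h1 : r = (16 + 2 * δ) / δ := by
      rw [hr]
      field_simp
    rw [hβ, h1]
    have h2 : (0 : ℝ) < 16 + 2 * δ := by positivity
    field_simp
    ring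
  have hβK : ∀ U : ℕ, K ≤ U → 4 * (U : ℝ) + 16 ≤ β * (1 - 1 / r) * ((U : ℝ) - 3) := by
    intro U hU
    rw [hβr]
    have h1 : 112 / δ + 3 ≤ (U : ℝ) := hK2.trans (by exact_mod_cast hU)
    have h2 : δ * (112 / δ + 3) ≤ δ * (U : ℝ) := mul_le_mul_of_nonneg_left h1 hδ.le
    have h3 : δ * (112 / δ + 3) = 112 + 3 * δ := by
      field_simp
    nlinarith
  set q : ℝ := 1 / ((K : ℝ) + 4) ^ 2 with hq
  have hK4 : (0 : ℝ) < ((K : ℝ) + 4) ^ 2 := by positivity
  have hq0 : 0 < q := by positivity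
  have hq1 : q * ((K : ℝ) + 4) ^ 2 ≤ 1 := by
    rw [hq]
    apply le_of_eq
    field_simp
  set c : ℝ := q ^ (3 * K) with hc
  have hc0 : 0 < c := by positivity
  have hr2 : 0 < r ^ 2 := by positivity
  refine ⟨c * (r ^ 2) ^ (-β) / 384, by positivity, K + 6, ?_⟩
  intro n hn heven
  have hn6 : 6 ≤ n := by omega
  have hnpos : (0 : ℝ) < n := by
    have : 0 < n := by omega
    exact_mod_cast this
  have hlow := target_lower (V := Fin n) hr1 hβ0 hq0 hq1 hc0.le (le_refl c) hK1 hβK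
    (by rw [Fintype.card_fin]; exact heven) (by rw [Fintype.card_fin]; omega) (n.choose 2)
    (by
      rw [Fintype.card_fin]
      have h1 := Nat.triangle_succ (n - 1)
      have h2 : n - 1 + 1 = n := by omega
      rw [Nat.choose_two_right]
      have h3 : 3 * n ≤ n * (n - 1) := by
        rw [mul_comm 3 n]
        exact Nat.mul_le_mul_left n (by omega)
      have h4 : 2 ∣ n * (n - 1) := by
        obtain ⟨a, ha⟩ := heven
        exact ⟨a * (n - 1), by rw [ha]; ring⟩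
      rw [Nat.mul_div_cancel' h4]
      exact h3) ⊥ rfl
  rw [Fintype.card_fin] at hlow
  have hch : (n : ℝ) ^ 4 / 384 ≤ (n.choose 4 : ℝ) := by
    have h1 := Nat.pow_le_choose (α := ℝ) 4 n
    have h2 : ((n + 1 - 4 : ℕ) : ℝ) = (n : ℝ) - 3 := by
      rw [Nat.cast_sub (by omega)]
      push_cast
      ring
    have h3 : (n : ℝ) / 2 ≤ (n : ℝ) - 3 := by
      have : (6 : ℝ) ≤ n := by exact_mod_cast hn6
      linarith
    have h4 : ((n : ℝ) / 2) ^ 4 ≤ ((n : ℝ) - 3) ^ 4 := pow_le_pow_left₀ (by positivity) h3 4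
    rw [h2] at h1
    have h5 : ((Nat.factorial 4 : ℕ) : ℝ) = 24 := by norm_num [Nat.factorial]
    rw [div_le_iff₀ (by positivity), h5] at h1
    nlinarith
  have hpow : ((n : ℝ) * r ^ 2) ^ (-β) ≤ (((n : ℝ) - 4) * r ^ 2) ^ (-β) := by
    apply Real.rpow_le_rpow_of_nonpos
    · apply mul_pos _ hr2
      have : (6 : ℝ) ≤ n := by exact_mod_cast hn6
      linarith
    · apply mul_le_mul_of_nonneg_right _ hr2.le
      linarith
    · linarith
  have hmain : c * (r ^ 2) ^ (-β) / 384 * (n : ℝ) ^ (-(δ / 2)) ≤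
      (n.choose 4 : ℝ) * (c * (((n : ℝ) - 4) * r ^ 2) ^ (-β)) := by
    calc c * (r ^ 2) ^ (-β) / 384 * (n : ℝ) ^ (-(δ / 2))
        = (n : ℝ) ^ 4 / 384 * (c * ((n : ℝ) * r ^ 2) ^ (-β)) := by
          rw [Real.mul_rpow hnpos.le hr2.le]
          have h1 : (n : ℝ) ^ (-(δ / 2)) = (n : ℝ) ^ 4 * (n : ℝ) ^ (-β) := by
            rw [← Real.rpow_natCast, ← Real.rpow_add hnpos]
            congr 1
            rw [hβ]
            push_cast
            ring
          rw [h1]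
          ring
      _ ≤ (n.choose 4 : ℝ) * (c * ((n : ℝ) * r ^ 2) ^ (-β)) :=
          mul_le_mul_of_nonneg_right hch (by positivity)
      _ ≤ _ := mul_le_mul_of_nonneg_left (mul_le_mul_of_nonneg_left hpow hc0.le)
          (Nat.cast_nonneg _)
  have hpos : 0 < pr 3 (target (Fin n)) (n.choose 2) (⊥ : SimpleGraph (Fin n)) := by
    refine lt_of_lt_of_le ?_ (hmain.trans hlow)
    positivity
  exact (hmain.trans hlow).trans (condDisconnected_lower n hpos)

theorem tendsto_all (δ : ℝ) (hδ : 0 < δ) :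
    Tendsto (fun m : ℕ => ((2 * m : ℕ) : ℝ) ^ δ * condDisconnected (2 * m)) atTop atTop := by
  obtain ⟨C, hC, N, hN⟩ := power_lower δ hδ
  have h1 : Tendsto (fun m : ℕ => C * ((2 * m : ℕ) : ℝ) ^ (δ / 2)) atTop atTop := by
    apply Tendsto.const_mul_atTop hC
    apply (tendsto_rpow_atTop (half_pos hδ)).comp
    apply tendsto_natCast_atTop_atTop.comp
    exact tendsto_id.const_mul_atTop' (by norm_num)
  apply tendsto_atTop_mono' atTop _ h1
  filter_upwards [eventually_ge_atTop (N + 1)] with m hm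
  have h2 := hN (2 * m) (by omega) (even_two_mul m)
  have hpos : (0 : ℝ) < ((2 * m : ℕ) : ℝ) := by
    have : 0 < 2 * m := by omega
    exact_mod_cast this
  calc C * ((2 * m : ℕ) : ℝ) ^ (δ / 2)
      = ((2 * m : ℕ) : ℝ) ^ δ * (C * ((2 * m : ℕ) : ℝ) ^ (-(δ / 2))) := by
        have h3 : ((2 * m : ℕ) : ℝ) ^ (δ / 2) =
            ((2 * m : ℕ) : ℝ) ^ δ * ((2 * m : ℕ) : ℝ) ^ (-(δ / 2)) := by
          rw [← Real.rpow_add hpos]
          congr 1
          ring
        rw [h3]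
        ring
    _ ≤ _ := mul_le_mul_of_nonneg_left h2 (Real.rpow_nonneg hpos.le _)

theorem not_tendsto : ¬ ∃ c : ℝ,
    Tendsto (fun m : ℕ => ((2 * m : ℕ) : ℝ) ^ 2 * condDisconnected (2 * m)) atTop (nhds c) := by
  rintro ⟨c, hc⟩
  have h1 := tendsto_all 2 (by norm_num)
  have h2 : (fun m : ℕ => ((2 * m : ℕ) : ℝ) ^ (2 : ℝ) * condDisconnected (2 * m)) =
      fun m : ℕ => ((2 * m : ℕ) : ℝ) ^ 2 * condDisconnected (2 * m) := by
    funext m
    rw [Real.rpow_two]
  rw [h2] at h1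
  exact not_tendsto_nhds_of_tendsto_atTop h1 c hc

end

end Pool.Agent.DProcess
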