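import Pool.Agent.Work.MP_1a989c_pr.Defs

set_option autoImplicit false

namespace Pool.Agent.DProcess

open Classical

noncomputable section

variable {V : Type} [Fintype V]

theorem mem_available {d : ℕ} {G : SimpleGraph V} {e : Sym2 V} :
    e ∈ available d G ↔ IsAvailable d G e := by
  simp [available]

omit [Fintype V] in
theorem addEdge_adj (G : SimpleGraph V) (e : Sym2 V) (u v : V) :
    (addEdge G e).Adj u v ↔ G.Adj u v ∨ (s(u, v) = e ∧ u ≠ v) := by
  simp [addEdge, SimpleGraph.fromEdgeSet_adj]

omit [Fintype V] in
theorem le_addEdge (G : SimpleGraph V) (e : Sym2 V) : G ≤ addEdge G e := le_sup_left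

/-- The degrees after adding a new edge. -/
theorem degree_addEdge (G : SimpleGraph V) (e : Sym2 V) (hd : ¬ e.IsDiag) (he : e ∉ G.edgeSet)
    (v : V) : (addEdge G e).degree v = G.degree v + (if v ∈ e then 1 else 0) := by
  by_cases hv : v ∈ e
  · rw [if_pos hv]
    obtain ⟨w, rfl⟩ := hv
    have hvw : v ≠ w := by simpa using hd
    have hna : ¬ G.Adj v w := by simpa using he
    have : (addEdge G s(v, w)).neighborFinset v = insert w (G.neighborFinset v) := by
      ext x
      simp only [SimpleGraph.mem_neighborFinset, addEdge_adj, Finset.mem_insert, Sym2.eq_iff]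
      constructor
      · rintro (h | ⟨h | h, h3⟩)
        · exact Or.inr h
        · exact Or.inl h.2
        · exact absurd h.1 hvw
      · rintro (h | h)
        · subst h
          exact Or.inr ⟨by simp, hvw⟩
        · exact Or.inl h
    rw [SimpleGraph.degree, this, Finset.card_insert_of_notMem]
    · rfl
    · simpa using hna
  · rw [if_neg hv, add_zero]
    have : (addEdge G e).neighborFinset v = G.neighborFinset v := by
      ext x
      simp only [SimpleGraph.mem_neighborFinset, addEdge_adj]
      constructor
      · rintro (h | ⟨h, _⟩)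
        · exact h
        · exact absurd (h ▸ Sym2.mem_mk_left v x) hv
      · exact Or.inl
    rw [SimpleGraph.degree, this]
    rfl

/-- The law of the process after `k` more steps, from the graph `G`. -/
def iter (d : ℕ) : ℕ → SimpleGraph V → PMF (SimpleGraph V)
  | 0, G => PMF.pure G
  | k + 1, G => (step d G).bind (iter d k)

theorem iter_succ' (d k : ℕ) (G : SimpleGraph V) :
    iter d (k + 1) G = (iter d k G).bind (step d) := by
  induction k generalizing G with
  | zero => simp [iter, PMF.pure_bind, PMF.bind_pure]
  | succ k ih =>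
    show (step d G).bind (iter d (k + 1)) = ((step d G).bind (iter d k)).bind (step d)
    rw [PMF.bind_bind]
    congr 1
    funext G'
    exact ih G'

theorem law_eq_iter (d k : ℕ) : law V d k = iter d k (⊥ : SimpleGraph V) := by
  induction k with
  | zero => rfl
  | succ k ih => rw [iter_succ', ← ih]; rfl

/-- The probability of `R` after `k` more steps from `G`, as a real number. -/
def pr (d : ℕ) (R : Set (SimpleGraph V)) (k : ℕ) (G : SimpleGraph V) : ℝ :=
  ((iter d k G).toOuterMeasure R).toReal

theorem outer_le_one {α : Type} (p : PMF α) (s : Set α) : p.toOuterMeasure s ≤ 1 := by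
  rw [PMF.toOuterMeasure_apply]
  calc ∑' x, s.indicator p x ≤ ∑' x, p x := by
        apply ENNReal.tsum_le_tsum
        intro x
        exact Set.indicator_le_self _ _ _
    _ = 1 := p.tsum_coe

theorem pr_nonneg (d : ℕ) (R : Set (SimpleGraph V)) (k : ℕ) (G : SimpleGraph V) :
    0 ≤ pr d R k G := ENNReal.toReal_nonneg

theorem pr_zero (d : ℕ) (R : Set (SimpleGraph V)) (G : SimpleGraph V) :
    pr d R 0 G = if G ∈ R then 1 else 0 := by
  unfold pr iter
  rw [PMF.toOuterMeasure_pure_apply]
  split_ifs <;> simp

theorem pr_succ_of_empty (d : ℕ) (R : Set (SimpleGraph V)) (k : ℕ) (G : SimpleGraph V)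
    (h : ¬ (available d G).Nonempty) : pr d R (k + 1) G = pr d R k G := by
  unfold pr
  show (((step d G).bind (iter d k)).toOuterMeasure R).toReal = _
  rw [step, dif_neg h, PMF.pure_bind]

theorem pr_succ_of_nonempty (d : ℕ) (R : Set (SimpleGraph V)) (k : ℕ) (G : SimpleGraph V)
    (h : (available d G).Nonempty) :
    pr d R (k + 1) G = (∑ e ∈ available d G, pr d R k (addEdge G e)) / (available d G).card := by
  unfold pr
  show (((step d G).bind (iter d k)).toOuterMeasure R).toReal = _
  rw [step, dif_pos h, PMF.bind_map, PMF.toOuterMeasure_bind_apply]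
  have h1 : (∑' a : Sym2 V, (PMF.uniformOfFinset (available d G) h) a *
      ((iter d k ∘ addEdge G) a).toOuterMeasure R) =
      ∑ e ∈ available d G, ((available d G).card : ENNReal)⁻¹ *
        (iter d k (addEdge G e)).toOuterMeasure R := by
    rw [tsum_eq_sum (s := available d G)]
    · apply Finset.sum_congr rfl
      intro e he
      rw [PMF.uniformOfFinset_apply_of_mem h he]
      rfl
    · intro e he
      rw [PMF.uniformOfFinset_apply_of_notMem h he, zero_mul]
  rw [h1, ENNReal.toReal_sum]
  · rw [Finset.sum_div]
    apply Finset.sum_congr rfl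
    intro e _
    rw [ENNReal.toReal_mul, ENNReal.toReal_inv, ENNReal.toReal_natCast, div_eq_inv_mul]
  · intro e _
    apply ENNReal.mul_ne_top
    · simp only [ne_eq, ENNReal.inv_eq_top, Nat.cast_eq_zero, Finset.card_eq_zero]
      exact h.ne_empty
    · exact ne_top_of_le_ne_top ENNReal.one_ne_top (outer_le_one _ _)

end

end Pool.Agent.DProcess
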