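import Pool.Agent.Work.MP_1a989c_pr.Absorb

set_option autoImplicit false

namespace Pool.Agent.DProcess

open Classical

noncomputable section

variable {V : Type} [Fintype V]

/-- `G` extends to a graph which is `3`-regular outside `S`, the vertices of `S` isolated. -/
def Completable (S : Finset V) (G : SimpleGraph V) : Prop :=
  ∃ H : SimpleGraph V, G ≤ H ∧ (∀ v, v ∉ S → H.degree v = 3) ∧ ∀ v ∈ S, H.degree v = 0

/-- The unsaturated vertices outside `S`. -/
def unsat (S : Finset V) (G : SimpleGraph V) : Finset V :=
  Finset.univ.filter (fun v => v ∉ S ∧ G.degree v < 3)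

theorem mem_unsat {S : Finset V} {G : SimpleGraph V} {v : V} :
    v ∈ unsat S G ↔ v ∉ S ∧ G.degree v < 3 := by
  simp [unsat]

theorem degree_pos_of_adj {G : SimpleGraph V} {u v : V} (h : G.Adj u v) : 0 < G.degree u := by
  rw [SimpleGraph.degree_pos_iff_exists_adj]
  exact ⟨v, h⟩

theorem sum_degree_addEdge (G : SimpleGraph V) (e : Sym2 V) (hd : ¬ e.IsDiag)
    (he : e ∉ G.edgeSet) : ∑ v, (addEdge G e).degree v = (∑ v, G.degree v) + 2 := by
  rw [← sum_mem_sym2 e hd, ← Finset.sum_add_distrib]
  exact Finset.sum_congr rfl (fun v _ => degree_addEdge G e hd he v)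

omit [Fintype V] in
theorem exists_delete (H : SimpleGraph V) {x y : V} (h : H.Adj x y) :
    ∃ H0 : SimpleGraph V, addEdge H0 s(x, y) = H ∧ s(x, y) ∉ H0.edgeSet ∧ H0 ≤ H ∧
      ∀ a b, H.Adj a b → s(a, b) ≠ s(x, y) → H0.Adj a b := by
  refine ⟨H.deleteEdges {s(x, y)}, ?_, ?_, SimpleGraph.deleteEdges_le _, ?_⟩
  · ext a b
    rw [addEdge_adj, SimpleGraph.deleteEdges_adj]
    constructor
    · rintro (⟨h1, _⟩ | ⟨h1, _⟩)
      · exact h1
      · rcases Sym2.eq_iff.1 h1 with ⟨rfl, rfl⟩ | ⟨rfl, rfl⟩
        · exact h
        · exact h.symm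
    · intro hab
      by_cases h1 : s(a, b) = s(x, y)
      · exact Or.inr ⟨h1, hab.ne⟩
      · exact Or.inl ⟨hab, by simpa using h1⟩
  · simp
  · intro a b hab hne
    rw [SimpleGraph.deleteEdges_adj]
    exact ⟨hab, by simpa using hne⟩

theorem completable_of_large (S : Finset V) (hS : S.card = 4) (hV : Even (Fintype.card V))
    (G : SimpleGraph V) (hG : ∀ v, G.degree v ≤ 3) (hiso : ∀ v ∈ S, G.degree v = 0)
    (hW : 14 ≤ (unsat S G).card) : Completable S G := by
  -- a maximal extension
  let X : Finset (SimpleGraph V) := Finset.univ.filter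
    (fun H => G ≤ H ∧ (∀ v, H.degree v ≤ 3) ∧ ∀ v ∈ S, H.degree v = 0)
  have hX : ∀ H, H ∈ X ↔ (G ≤ H ∧ (∀ v, H.degree v ≤ 3) ∧ ∀ v ∈ S, H.degree v = 0) := by
    intro H
    simp [X]
  obtain ⟨H, hHX, hmax⟩ := Finset.exists_max_image X (fun H => ∑ v, H.degree v)
    ⟨G, (hX G).2 ⟨le_rfl, hG, hiso⟩⟩
  obtain ⟨hGH, hH3, hH0⟩ := (hX H).1 hHX
  refine ⟨H, hGH, ?_, hH0⟩
  by_contra hcon
  push Not at hcon
  obtain ⟨v, hvS, hv3⟩ := hcon
  have hv : H.degree v < 3 := lt_of_le_of_ne (hH3 v) hv3
  -- unsaturated vertices are adjacent to v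
  have hadj : ∀ u, u ∉ S → u ≠ v → H.degree u < 3 → H.Adj v u := by
    intro u huS huv hu
    by_contra hna
    have hd : ¬ (s(v, u)).IsDiag := by simpa using huv.symm
    have he : s(v, u) ∉ H.edgeSet := by simpa using hna
    have hin : addEdge H s(v, u) ∈ X := by
      refine (hX _).2 ⟨hGH.trans (le_addEdge _ _), ?_, ?_⟩
      · intro z
        rw [degree_addEdge H _ hd he]
        split_ifs with hz
        · rcases Sym2.mem_iff.1 hz with rfl | rfl
          · omega
          · omega
        · exact hH3 z
      · intro z hz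
        rw [degree_addEdge H _ hd he, if_neg, add_zero]
        · exact hH0 z hz
        · intro hmem
          rcases Sym2.mem_iff.1 hmem with rfl | rfl
          · exact hvS hz
          · exact huS hz
    have h1 := hmax _ hin
    rw [sum_degree_addEdge H _ hd he] at h1
    omega
  -- choice of u
  have hu : ∃ u, u ∉ S ∧ H.degree u < 3 ∧ ((u ≠ v ∧ H.Adj v u) ∨ (u = v ∧ H.degree v ≤ 1)) := by
    by_cases hex : ∃ u, u ∉ S ∧ u ≠ v ∧ H.degree u < 3
    · obtain ⟨u, h1, h2, h3⟩ := hex
      exact ⟨u, h1, h3, Or.inl ⟨h2, hadj u h1 h2 h3⟩⟩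
    · push Not at hex
      refine ⟨v, hvS, hv, Or.inr ⟨rfl, ?_⟩⟩
      have hsum := H.sum_degrees_eq_twice_card_edges
      have hsplit : ∑ x, H.degree x = H.degree v + 3 * (Fintype.card V - 5) := by
        have h1 : ∑ x, H.degree x = ∑ x ∈ Finset.univ.filter (fun x => x ∉ S), H.degree x := by
          symm
          apply Finset.sum_subset (Finset.filter_subset _ _)
          intro x _ hx
          simp only [Finset.mem_filter, Finset.mem_univ, true_and, not_not] at hx
          exact hH0 x hx
        have hvm : v ∈ Finset.univ.filter (fun x => x ∉ S) := by simp [hvS]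
        rw [h1, ← Finset.add_sum_erase _ _ hvm]
        congr 1
        have h2 : ∀ x ∈ (Finset.univ.filter (fun x => x ∉ S)).erase v, H.degree x = 3 := by
          intro x hx
          obtain ⟨hxv, hx'⟩ := Finset.mem_erase.1 hx
          simp only [Finset.mem_filter, Finset.mem_univ, true_and] at hx'
          have := hex x hx' hxv
          have := hH3 x
          omega
        rw [Finset.sum_congr rfl h2, Finset.sum_const, Finset.card_erase_of_mem hvm]
        have h3 : (Finset.univ.filter (fun x => x ∉ S)).card = Fintype.card V - 4 := by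
          have : (Finset.univ.filter (fun x => x ∉ S)) = Sᶜ := by
            ext x; simp
          rw [this, Finset.card_compl, hS]
        rw [h3, smul_eq_mul]
        have : Fintype.card V - 4 - 1 = Fintype.card V - 5 := by omega
        rw [this]
        ring
      have hn : 5 ≤ Fintype.card V := by
        have h4 : (insert v S).card ≤ Fintype.card V := Finset.card_le_univ _
        rw [Finset.card_insert_of_notMem hvS, hS] at h4
        exact h4
      obtain ⟨m, hm⟩ := hV
      omega
  obtain ⟨u, huS, hu3, huv⟩ := hu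
  -- the ball
  let B : Finset V := insert v (H.neighborFinset v ∪ (H.neighborFinset v).biUnion
    (fun w => H.neighborFinset w))
  have hB : B.card ≤ 13 := by
    have h1 : (H.neighborFinset v).card ≤ 3 := by
      rw [SimpleGraph.card_neighborFinset_eq_degree]; exact hH3 v
    have h2 : ((H.neighborFinset v).biUnion (fun w => H.neighborFinset w)).card ≤
        (H.neighborFinset v).card * 3 := by
      apply Finset.card_biUnion_le_card_mul
      intro w _
      rw [SimpleGraph.card_neighborFinset_eq_degree]; exact hH3 w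
    have h3 := Finset.card_insert_le v (H.neighborFinset v ∪ (H.neighborFinset v).biUnion
      (fun w => H.neighborFinset w))
    have h4 := Finset.card_union_le (H.neighborFinset v) ((H.neighborFinset v).biUnion
      (fun w => H.neighborFinset w))
    have h5 : B.card ≤ (H.neighborFinset v ∪ (H.neighborFinset v).biUnion
      (fun w => H.neighborFinset w)).card + 1 := h3
    omega
  obtain ⟨x, hxW, hxB⟩ : ∃ x ∈ unsat S G, x ∉ B := by
    by_contra hcon
    push Not at hcon
    have := Finset.card_le_card (show unsat S G ⊆ B from hcon)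
    omega
  obtain ⟨hxS, hxG⟩ := mem_unsat.1 hxW
  have hxv : x ≠ v := by
    rintro rfl
    exact hxB (Finset.mem_insert_self _ _)
  have hxN : ¬ H.Adj v x := by
    intro h
    exact hxB (Finset.mem_insert_of_mem (Finset.mem_union_left _
      ((SimpleGraph.mem_neighborFinset _ _ _).2 h)))
  have hxNN : ∀ w, H.Adj v w → ¬ H.Adj w x := by
    intro w h1 h2
    exact hxB (Finset.mem_insert_of_mem (Finset.mem_union_right _
      (Finset.mem_biUnion.2 ⟨w, (SimpleGraph.mem_neighborFinset _ _ _).2 h1,
        (SimpleGraph.mem_neighborFinset _ _ _).2 h2⟩)))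
  have hxH : H.degree x = 3 := by
    by_contra hne
    exact hxN (hadj x hxS hxv (lt_of_le_of_ne (hH3 x) hne))
  obtain ⟨y, hxy, hxyG⟩ : ∃ y, H.Adj x y ∧ ¬ G.Adj x y := by
    by_contra hcon
    push Not at hcon
    have hle : H.neighborFinset x ⊆ G.neighborFinset x := by
      intro y hy
      rw [SimpleGraph.mem_neighborFinset] at hy ⊢
      exact hcon y hy
    have := Finset.card_le_card hle
    rw [SimpleGraph.card_neighborFinset_eq_degree, SimpleGraph.card_neighborFinset_eq_degree]
      at this
    omega
  have hyS : y ∉ S := by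
    intro hy
    have := degree_pos_of_adj hxy.symm
    rw [hH0 y hy] at this
    exact absurd this (lt_irrefl _)
  have hyv : y ≠ v := by
    rintro rfl
    exact hxN hxy.symm
  have hyN : ¬ H.Adj v y := fun h => hxNN y h hxy.symm
  have hux : u ≠ x := by
    rcases huv with ⟨_, h⟩ | ⟨h, _⟩
    · rintro rfl
      exact hxN h
    · rw [h]; exact hxv.symm
  have huy : u ≠ y := by
    rcases huv with ⟨_, h⟩ | ⟨h, _⟩
    · rintro rfl
      exact hyN h
    · rw [h]; exact hyv.symm
  have huxN : ¬ H.Adj u x := by
    rcases huv with ⟨_, h⟩ | ⟨h, _⟩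
    · exact hxNN u h
    · rw [h]; exact hxN
  -- the switched graph
  obtain ⟨H0, hH0H, hexy, hH0le, hH0adj⟩ := exists_delete H hxy
  have hdxy : ¬ (s(x, y)).IsDiag := by simpa using hxy.ne
  have hd1 : ¬ (s(u, x)).IsDiag := by simpa using hux
  have he1 : s(u, x) ∉ H0.edgeSet := by
    rw [SimpleGraph.mem_edgeSet]
    exact fun h => huxN (hH0le h)
  have hd2 : ¬ (s(v, y)).IsDiag := by simpa using hyv.symm
  have he2 : s(v, y) ∉ (addEdge H0 s(u, x)).edgeSet := by
    rw [SimpleGraph.mem_edgeSet, addEdge_adj]
    rintro (h | ⟨h, _⟩)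
    · exact hyN (hH0le h)
    · rcases Sym2.eq_iff.1 h with ⟨_, h2⟩ | ⟨h1, _⟩
      · exact hxy.ne h2.symm
      · exact hxv h1.symm
  have hdegH : ∀ z, H.degree z = H0.degree z + (if z ∈ s(x, y) then 1 else 0) := by
    intro z
    have h := degree_addEdge H0 _ hdxy hexy z
    rw [hH0H] at h
    exact h
  have hdegH' : ∀ z, (addEdge (addEdge H0 s(u, x)) s(v, y)).degree z =
      H0.degree z + (if z ∈ s(u, x) then 1 else 0) + (if z ∈ s(v, y) then 1 else 0) := by
    intro z
    rw [degree_addEdge _ _ hd2 he2, degree_addEdge _ _ hd1 he1]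
  have hin : addEdge (addEdge H0 s(u, x)) s(v, y) ∈ X := by
    refine (hX _).2 ⟨?_, ?_, ?_⟩
    · refine le_trans ?_ ((le_addEdge H0 s(u, x)).trans (le_addEdge _ _))
      intro a b hab
      refine hH0adj a b (hGH hab) ?_
      intro hmem
      rcases Sym2.eq_iff.1 hmem with ⟨rfl, rfl⟩ | ⟨rfl, rfl⟩
      · exact hxyG hab
      · exact hxyG hab.symm
    · intro z
      have h1 := hdegH z
      have h3 := hH3 z
      rw [hdegH' z]
      simp only [Sym2.mem_iff] at h1 ⊢
      by_cases hzx : z = x
      · subst hzx
        have e1 : ¬ (z = v ∨ z = y) := by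
          rintro (h | h)
          · exact hxv h
          · exact hxy.ne h
        rw [if_neg e1]
        simp only [true_or, or_true, if_true] at h1 ⊢
        omega
      · by_cases hzy : z = y
        · subst hzy
          have e1 : ¬ (z = u ∨ z = x) := by
            rintro (h | h)
            · exact huy h.symm
            · exact hzx h
          rw [if_neg e1]
          simp only [or_true, if_true] at h1 ⊢
          omega
        · have e1 : ¬ (z = x ∨ z = y) := by
            rintro (h | h)
            · exact hzx h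
            · exact hzy h
          rw [if_neg e1] at h1
          simp only [hzx, hzy, or_false]
          by_cases hzv : z = v
          · subst hzv
            rcases huv with ⟨h, _⟩ | ⟨_, h⟩
            · rw [if_neg (Ne.symm h)]
              simp only [if_true]
              omega
            · split_ifs <;> omega
          · rw [if_neg hzv]
            split_ifs with hzu
            · subst hzu
              omega
            · omega
    · intro z hz
      have h1 := hdegH z
      have h2 := hH0 z hz
      rw [hdegH' z]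
      have e1 : z ∉ s(u, x) := by
        intro h
        rcases Sym2.mem_iff.1 h with rfl | rfl
        · exact huS hz
        · exact hxS hz
      have e2 : z ∉ s(v, y) := by
        intro h
        rcases Sym2.mem_iff.1 h with rfl | rfl
        · exact hvS hz
        · exact hyS hz
      rw [if_neg e1, if_neg e2]
      omega
  have hcontra := hmax _ hin
  have hs1 : ∑ z, H.degree z = (∑ z, H0.degree z) + 2 := by
    have h := sum_degree_addEdge H0 _ hdxy hexy
    rw [hH0H] at h
    exact h
  have hs2 := sum_degree_addEdge _ _ hd2 he2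
  have hs3 := sum_degree_addEdge _ _ hd1 he1
  omega

end

end Pool.Agent.DProcess
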