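import Mathlib

set_option autoImplicit false

namespace Pool.Agent.DProcess

open Classical

noncomputable section

variable {V : Type} [Fintype V]

/-- A pair `e` of vertices is available in `G` for the `d`-process: it consists of two distinct
nonadjacent vertices, both of degree less than `d`. -/
def IsAvailable (d : ℕ) (G : SimpleGraph V) (e : Sym2 V) : Prop :=
  ¬ e.IsDiag ∧ e ∉ G.edgeSet ∧ ∀ v ∈ e, G.degree v < d

/-- The finite set of available pairs. -/
def available (d : ℕ) (G : SimpleGraph V) : Finset (Sym2 V) :=
  Finset.univ.filter (IsAvailable d G)

/-- The graph `G` with the pair `e` added as an edge. -/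
def addEdge (G : SimpleGraph V) (e : Sym2 V) : SimpleGraph V :=
  G ⊔ SimpleGraph.fromEdgeSet {e}

/-- One step of the `d`-process from the graph `G`: if some pair is available, add an available
pair chosen uniformly at random; otherwise the process has stopped and `G` is kept. -/
def step (d : ℕ) (G : SimpleGraph V) : PMF (SimpleGraph V) :=
  if h : (available d G).Nonempty then
    (PMF.uniformOfFinset (available d G) h).map (addEdge G)
  else PMF.pure G

variable (V) in
/-- The law of the `d`-process on the vertex set `V`, started at the graph without edges,
after `k` steps. -/
def law (d : ℕ) : ℕ → PMF (SimpleGraph V)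
  | 0 => PMF.pure ⊥
  | k + 1 => (law d k).bind (step d)

variable (V) in
/-- The law of the final graph of the `d`-process on `V`. Every step at which some pair is
available adds an edge, so the process has stopped after at most `(card V).choose 2` steps. -/
def finalLaw (d : ℕ) : PMF (SimpleGraph V) :=
  law V d ((Fintype.card V).choose 2)

/-- The probability that the final graph `G` of the `3`-process on `n` vertices, conditioned on
being `3`-regular, is disconnected. -/
def condDisconnected (n : ℕ) : ℝ :=
  ((finalLaw (Fin n) 3).toOuterMeasure {G | G.IsRegularOfDegree 3 ∧ ¬ G.Connected} /
    (finalLaw (Fin n) 3).toOuterMeasure {G | G.IsRegularOfDegree 3}).toReal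

end

end Pool.Agent.DProcess
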