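import Pool.Agent.Work.MP_1a989c_pr.Sub

set_option autoImplicit false

namespace Pool.Agent.DProcess

open Classical

noncomputable section

variable {V : Type} [Fintype V]

/-- The sets of four isolated vertices. -/
def isoSets (G : SimpleGraph V) : Finset (Finset V) :=
  Finset.univ.filter (fun S => S.card = 4 ∧ ∀ v ∈ S, G.degree v = 0)

theorem mem_isoSets {G : SimpleGraph V} {S : Finset V} :
    S ∈ isoSets G ↔ S.card = 4 ∧ ∀ v ∈ S, G.degree v = 0 := by
  simp [isoSets]

theorem isoSets_addEdge {G : SimpleGraph V} {e : Sym2 V} (h : IsAvailable 3 G e) :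
    isoSets (addEdge G e) = (isoSets G).filter (fun S => ∀ v ∈ S, v ∉ e) := by
  ext S
  rw [mem_isoSets, Finset.mem_filter, mem_isoSets]
  constructor
  · rintro ⟨h1, h2⟩
    have h3 : ∀ v ∈ S, G.degree v = 0 ∧ v ∉ e := by
      intro v hv
      have h4 := h2 v hv
      rw [degree_addEdge G e h.1 h.2.1] at h4
      by_cases hve : v ∈ e
      · rw [if_pos hve] at h4
        omega
      · rw [if_neg hve] at h4
        exact ⟨by omega, hve⟩
    exact ⟨⟨h1, fun v hv => (h3 v hv).1⟩, fun v hv => (h3 v hv).2⟩
  · rintro ⟨⟨h1, h2⟩, h3⟩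
    refine ⟨h1, fun v hv => ?_⟩
    rw [degree_addEdge G e h.1 h.2.1, if_neg (h3 v hv), h2 v hv]

theorem available_nonempty_of_isoSet {G : SimpleGraph V} {S : Finset V} (hS : S ∈ isoSets G) :
    (available 3 G).Nonempty := by
  obtain ⟨h1, h2⟩ := mem_isoSets.1 hS
  obtain ⟨a, ha, b, hb, hab⟩ := Finset.one_lt_card.1 (by rw [h1]; norm_num : 1 < S.card)
  refine ⟨s(a, b), mem_available.2 ⟨?_, ?_, ?_⟩⟩
  · simpa using hab
  · rw [SimpleGraph.mem_edgeSet]
    intro h
    have := degree_pos_of_adj h
    rw [h2 a ha] at this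
    exact absurd this (lt_irrefl _)
  · intro x hx
    rcases Sym2.mem_iff.1 hx with rfl | rfl
    · rw [h2 _ ha]; norm_num
    · rw [h2 _ hb]; norm_num

/-- The main inequality. -/
theorem main_ineq {r β q c : ℝ} {K : ℕ} (hr : 1 ≤ r) (hβ : 0 ≤ β) (hq0 : 0 < q)
    (hq : q * ((K : ℝ) + 4) ^ 2 ≤ 1) (hc0 : 0 ≤ c) (hc : c ≤ q ^ (3 * K)) (hK : 16 ≤ K)
    (hβK : ∀ U : ℕ, K ≤ U → 4 * (U : ℝ) + 16 ≤ β * (1 - 1 / r) * ((U : ℝ) - 3))
    (hV : Even (Fintype.card V)) (hV4 : 4 < Fintype.card V) (k : ℕ) :
    ∀ G : SimpleGraph V, (∀ v, G.degree v ≤ 3) → deficit G ≤ 2 * k →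
      ∑ S ∈ isoSets G, phi r β q c K S G ≤ pr 3 (target V) k G := by
  induction k with
  | zero =>
    intro G _ hk
    have hempty : isoSets G = ∅ := by
      rw [Finset.eq_empty_iff_forall_notMem]
      intro S hS
      obtain ⟨e, he⟩ := available_nonempty_of_isoSet hS
      have := deficit_addEdge (mem_available.1 he)
      omega
    rw [hempty, Finset.sum_empty]
    exact pr_nonneg _ _ _ _
  | succ k ih =>
    intro G hG hk
    by_cases hA : ∃ S ∈ isoSets G, unsat S G = ∅
    · obtain ⟨S, hS, hSe⟩ := hA
      obtain ⟨hS4, hS0⟩ := mem_isoSets.1 hS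
      have hout : ∀ v, v ∉ S → G.degree v = 3 := by
        intro v hv
        by_contra hne
        have : v ∈ unsat S G := mem_unsat.2 ⟨hv, lt_of_le_of_ne (hG v) hne⟩
        rw [hSe] at this
        exact absurd this (Finset.notMem_empty v)
      have huniq : isoSets G = {S} := by
        rw [Finset.eq_singleton_iff_unique_mem]
        refine ⟨hS, ?_⟩
        intro T hT
        obtain ⟨hT4, hT0⟩ := mem_isoSets.1 hT
        apply Finset.eq_of_subset_of_card_le
        · intro v hv
          by_contra hvS
          have h1 := hout v hvS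
          have h2 := hT0 v hv
          omega
        · rw [hT4, hS4]
      have hpr : pr 3 (target V) (k + 1) G = 1 := by
        apply pr_eq_one_of_closed S hS4 hV4 (k + 1) G hout _ hk
        intro u hu v hadj
        exfalso
        have := degree_pos_of_adj hadj
        rw [hS0 u hu] at this
        exact absurd this (lt_irrefl _)
      rw [huniq, Finset.sum_singleton, hpr]
      have hd : dS S G = 0 := by
        have := dS_le S G
        rw [hSe, Finset.card_empty] at this
        omega
      unfold phi
      rw [if_neg (by rw [hSe, Finset.card_empty]; omega), if_pos ⟨G, le_rfl, hout, hS0⟩, hd,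
        pow_zero]
    · push Not at hA
      by_cases hav : (available 3 G).Nonempty
      · rw [pr_succ_of_nonempty 3 _ k G hav]
        have hcard : (0 : ℝ) < ((available 3 G).card : ℝ) := by
          have := Finset.card_pos.2 hav
          exact_mod_cast this
        rw [le_div_iff₀ hcard]
        have h1 : ∑ e ∈ available 3 G, ∑ S ∈ isoSets (addEdge G e), phi r β q c K S (addEdge G e) ≤
            ∑ e ∈ available 3 G, pr 3 (target V) k (addEdge G e) := by
          apply Finset.sum_le_sum
          intro e he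
          have he' := mem_available.1 he
          apply ih _ (degree_le_addEdge hG he')
          have := deficit_addEdge he'
          omega
        refine le_trans ?_ h1
        have h2 : ∑ e ∈ available 3 G, ∑ S ∈ isoSets (addEdge G e),
            phi r β q c K S (addEdge G e) =
            ∑ S ∈ isoSets G, ∑ e ∈ avS S G, phi r β q c K S (addEdge G e) := by
          have h3 : ∀ e ∈ available 3 G, ∑ S ∈ isoSets (addEdge G e),
              phi r β q c K S (addEdge G e) =
              ∑ S ∈ isoSets G, if (∀ v ∈ S, v ∉ e) then phi r β q c K S (addEdge G e) else 0 := by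
            intro e he
            rw [isoSets_addEdge (mem_available.1 he), Finset.sum_filter]
          rw [Finset.sum_congr rfl h3, Finset.sum_comm]
          apply Finset.sum_congr rfl
          intro S _
          rw [avS, Finset.sum_filter]
        rw [h2, Finset.sum_mul]
        apply Finset.sum_le_sum
        intro S hS
        obtain ⟨hS4, hS0⟩ := mem_isoSets.1 hS
        rw [mul_comm]
        exact phi_sub hr hβ hq0 hq hc0 hc hK hβK hV S hS4 G hG hS0
          (hA S hS)
      · have hempty : isoSets G = ∅ := by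
          rw [Finset.eq_empty_iff_forall_notMem]
          intro S hS
          exact hav (available_nonempty_of_isoSet hS)
        rw [hempty, Finset.sum_empty]
        exact pr_nonneg _ _ _ _

theorem degree_bot' (G : SimpleGraph V) (hG : G = ⊥) (v : V) : G.degree v = 0 := by
  by_contra h
  obtain ⟨w, hw⟩ := (SimpleGraph.degree_pos_iff_exists_adj G v).1 (Nat.pos_of_ne_zero h)
  rw [hG] at hw
  exact hw

/-- Explicit lower bound for the probability of the target event. -/
theorem target_lower {r β q c : ℝ} {K : ℕ} (hr : 1 ≤ r) (hβ : 0 ≤ β) (hq0 : 0 < q)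
    (hq : q * ((K : ℝ) + 4) ^ 2 ≤ 1) (hc0 : 0 ≤ c) (hc : c ≤ q ^ (3 * K)) (hK : 16 ≤ K)
    (hβK : ∀ U : ℕ, K ≤ U → 4 * (U : ℝ) + 16 ≤ β * (1 - 1 / r) * ((U : ℝ) - 3))
    (hV : Even (Fintype.card V)) (hVK : K + 4 ≤ Fintype.card V) (k : ℕ)
    (hk : 3 * Fintype.card V ≤ 2 * k) (G : SimpleGraph V) (hG : G = ⊥) :
    ((Fintype.card V).choose 4 : ℝ) * (c * (((Fintype.card V : ℝ) - 4) * r ^ 2) ^ (-β)) ≤
      pr 3 (target V) k G := by
  have hd0 := degree_bot' G hG
  have h1 := main_ineq (V := V) hr hβ hq0 hq hc0 hc hK hβK hV (by omega) k G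
    (fun v => by rw [hd0]; norm_num)
    (by
      unfold deficit
      simp only [hd0, Nat.sub_zero]
      rw [Finset.sum_const, Finset.card_univ, smul_eq_mul]
      omega)
  refine le_trans (le_of_eq ?_) h1
  have h2 : isoSets G = Finset.powersetCard 4 Finset.univ := by
    ext S
    rw [mem_isoSets, Finset.mem_powersetCard]
    constructor
    · rintro ⟨h, _⟩
      exact ⟨Finset.subset_univ _, h⟩
    · rintro ⟨_, h⟩
      exact ⟨h, fun v _ => hd0 v⟩
  have h3 : ∀ S ∈ isoSets G, phi r β q c K S G =
      c * (((Fintype.card V : ℝ) - 4) * r ^ 2) ^ (-β) := by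
    intro S hS
    obtain ⟨hS4, _⟩ := mem_isoSets.1 hS
    have hcompl : Finset.univ.filter (fun v => v ∉ S) = Sᶜ := by
      ext x
      simp
    have hu : (unsat S G).card = Fintype.card V - 4 := by
      have : unsat S G = Sᶜ := by
        ext x
        rw [mem_unsat, hd0, Finset.mem_compl]
        simp
      rw [this, Finset.card_compl, hS4]
    have hPsi : Psi r S G = ((Fintype.card V : ℝ) - 4) * r ^ 2 := by
      unfold Psi
      simp only [hd0, wt_zero]
      rw [Finset.sum_const, hcompl, Finset.card_compl, hS4, nsmul_eq_mul,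
        Nat.cast_sub (by omega)]
      norm_num
    unfold phi
    rw [if_pos (by rw [hu]; omega), hPsi]
  rw [Finset.sum_congr rfl h3, Finset.sum_const, h2, Finset.card_powersetCard, Finset.card_univ,
    nsmul_eq_mul]

/-- The conditional probability is at least the probability of the target event. -/
theorem condDisconnected_lower (n : ℕ)
    (hpos : 0 < pr 3 (target (Fin n)) (n.choose 2) (⊥ : SimpleGraph (Fin n))) :
    pr 3 (target (Fin n)) (n.choose 2) (⊥ : SimpleGraph (Fin n)) ≤ condDisconnected n := by
  unfold condDisconnected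
  have hlaw : finalLaw (Fin n) 3 = iter 3 (n.choose 2) (⊥ : SimpleGraph (Fin n)) := by
    unfold finalLaw
    rw [law_eq_iter, Fintype.card_fin]
  rw [hlaw]
  set p := iter 3 (n.choose 2) (⊥ : SimpleGraph (Fin n)) with hp
  have hT : p.toOuterMeasure {G | G.IsRegularOfDegree 3 ∧ ¬ G.Connected} =
      p.toOuterMeasure (target (Fin n)) := rfl
  have hle : p.toOuterMeasure (target (Fin n)) ≤
      p.toOuterMeasure {G | G.IsRegularOfDegree 3} := by
    apply MeasureTheory.measure_mono
    intro G hG
    exact hG.1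
  have hne : p.toOuterMeasure {G | G.IsRegularOfDegree 3} ≠ 0 := by
    intro h0
    rw [h0, nonpos_iff_eq_zero] at hle
    unfold pr at hpos
    rw [← hp, hle] at hpos
    simp at hpos
  rw [hT, ENNReal.toReal_div]
  show (p.toOuterMeasure (target (Fin n))).toReal ≤ _
  have h1 : (p.toOuterMeasure {G | G.IsRegularOfDegree 3}).toReal ≤ 1 := by
    have := ENNReal.toReal_mono ENNReal.one_ne_top (outer_le_one p {G | G.IsRegularOfDegree 3})
    simpa using this
  have h2 : 0 < (p.toOuterMeasure {G | G.IsRegularOfDegree 3}).toReal :=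
    ENNReal.toReal_pos hne (ne_top_of_le_ne_top ENNReal.one_ne_top (outer_le_one _ _))
  rw [le_div_iff₀ h2]
  calc (p.toOuterMeasure (target (Fin n))).toReal *
        (p.toOuterMeasure {G | G.IsRegularOfDegree 3}).toReal
      ≤ (p.toOuterMeasure (target (Fin n))).toReal * 1 :=
        mul_le_mul_of_nonneg_left h1 ENNReal.toReal_nonneg
    _ = _ := mul_one _

end

end Pool.Agent.DProcess
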