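import Pool.Agent.Work.MP_1a989c_pr.Comp

set_option autoImplicit false

namespace Pool.Agent.DProcess

open Classical

noncomputable section

variable {V : Type} [Fintype V]

/-- Weights of the potential. -/
def wt (r : ℝ) (i : ℕ) : ℝ := if i = 0 then r ^ 2 else if i = 1 then r else if i = 2 then 1 else 0

/-- The potential outside `S`. -/
def Psi (r : ℝ) (S : Finset V) (G : SimpleGraph V) : ℝ :=
  ∑ v ∈ Finset.univ.filter (fun v => v ∉ S), wt r (G.degree v)

/-- The deficit outside `S`. -/
def dS (S : Finset V) (G : SimpleGraph V) : ℕ :=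
  ∑ v ∈ Finset.univ.filter (fun v => v ∉ S), (3 - G.degree v)

/-- The subsolution. -/
def phi (r β q c : ℝ) (K : ℕ) (S : Finset V) (G : SimpleGraph V) : ℝ :=
  if K ≤ (unsat S G).card then c * (Psi r S G) ^ (-β)
  else if Completable S G then q ^ (dS S G) else 0

/-- The available pairs avoiding `S`. -/
def avS (S : Finset V) (G : SimpleGraph V) : Finset (Sym2 V) :=
  (available 3 G).filter (fun e => ∀ v ∈ S, v ∉ e)

theorem wt_nonneg {r : ℝ} (hr : 1 ≤ r) (i : ℕ) : 0 ≤ wt r i := by
  unfold wt
  split_ifs <;> positivity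

theorem wt_three (r : ℝ) {i : ℕ} (hi : 3 ≤ i) : wt r i = 0 := by
  unfold wt
  rw [if_neg (by omega), if_neg (by omega), if_neg (by omega)]

theorem one_le_wt {r : ℝ} (hr : 1 ≤ r) {i : ℕ} (hi : i < 3) : 1 ≤ wt r i := by
  unfold wt
  interval_cases i
  · simp only [if_true]
    nlinarith
  · simp only [one_ne_zero, if_false, if_true]
    exact hr
  · norm_num

theorem wt_zero (r : ℝ) : wt r 0 = r ^ 2 := by simp [wt]

theorem wt_one (r : ℝ) : wt r 1 = r := by simp [wt]

theorem wt_two (r : ℝ) : wt r 2 = 1 := by simp [wt]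

theorem wt_drop {r : ℝ} (hr : 1 ≤ r) {i : ℕ} (hi : i < 3) :
    (1 - 1 / r) * wt r i ≤ wt r i - wt r (i + 1) := by
  have hr0 : 0 < r := by linarith
  interval_cases i
  · rw [wt_zero, show (0 + 1 : ℕ) = 1 from rfl, wt_one]
    apply le_of_eq
    field_simp
  · rw [wt_one, show (1 + 1 : ℕ) = 2 from rfl, wt_two]
    apply le_of_eq
    field_simp
  · rw [wt_two, wt_three r (by norm_num)]
    have : 0 < 1 / r := by positivity
    linarith

theorem wt_drop_nonneg {r : ℝ} (hr : 1 ≤ r) (i : ℕ) : 0 ≤ wt r i - wt r (i + 1) := by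
  by_cases hi : i < 3
  · have h1 := wt_drop hr hi
    have h2 : 0 ≤ (1 - 1 / r) * wt r i := by
      apply mul_nonneg _ (wt_nonneg hr i)
      have : 1 / r ≤ 1 := by
        rw [div_le_one (by linarith)]
        exact hr
      linarith
    linarith
  · rw [wt_three r (by omega), wt_three r (by omega), sub_zero]

theorem Psi_addEdge (r : ℝ) (S : Finset V) (G : SimpleGraph V) {e : Sym2 V}
    (h : IsAvailable 3 G e) :
    Psi r S G - Psi r S (addEdge G e) = ∑ v ∈ Finset.univ.filter (fun v => v ∉ S),
      if v ∈ e then wt r (G.degree v) - wt r (G.degree v + 1) else 0 := by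
  unfold Psi
  rw [← Finset.sum_sub_distrib]
  apply Finset.sum_congr rfl
  intro v _
  rw [degree_addEdge G e h.1 h.2.1]
  split_ifs <;> simp

theorem mem_avS {S : Finset V} {G : SimpleGraph V} {e : Sym2 V} :
    e ∈ avS S G ↔ IsAvailable 3 G e ∧ ∀ v ∈ S, v ∉ e := by
  rw [avS, Finset.mem_filter, mem_available]

theorem card_available_le (S : Finset V) (hS : S.card = 4) (G : SimpleGraph V) :
    (available 3 G).card ≤ (avS S G).card + (4 * (unsat S G).card + 16) := by
  have hsub : available 3 G ⊆ avS S G ∪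
      (S ×ˢ (unsat S G ∪ S)).image (fun p : V × V => s(p.1, p.2)) := by
    intro e he
    have he' := mem_available.1 he
    by_cases h : ∀ v ∈ S, v ∉ e
    · exact Finset.mem_union_left _ (mem_avS.2 ⟨he', h⟩)
    · push Not at h
      obtain ⟨a, haS, hae⟩ := h
      obtain ⟨b, rfl⟩ := hae
      apply Finset.mem_union_right
      rw [Finset.mem_image]
      refine ⟨(a, b), ?_, rfl⟩
      rw [Finset.mem_product]
      refine ⟨haS, ?_⟩
      by_cases hb : b ∈ S
      · exact Finset.mem_union_right _ hb
      · exact Finset.mem_union_left _ (mem_unsat.2 ⟨hb, he'.2.2 b (Sym2.mem_mk_right a b)⟩)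
  have h1 := Finset.card_le_card hsub
  have h2 := Finset.card_union_le (avS S G)
    ((S ×ˢ (unsat S G ∪ S)).image (fun p : V × V => s(p.1, p.2)))
  have h3 : ((S ×ˢ (unsat S G ∪ S)).image (fun p : V × V => s(p.1, p.2))).card ≤
      (S ×ˢ (unsat S G ∪ S)).card := Finset.card_image_le
  rw [Finset.card_product, hS] at h3
  have h4 := Finset.card_union_le (unsat S G) S
  rw [hS] at h4
  omega

theorem card_available_le' (S : Finset V) (hS : S.card = 4) (G : SimpleGraph V) :
    (available 3 G).card ≤ ((unsat S G).card + 4) ^ 2 := by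
  have hsub : available 3 G ⊆
      ((unsat S G ∪ S) ×ˢ (unsat S G ∪ S)).image (fun p : V × V => s(p.1, p.2)) := by
    intro e he
    have he' := mem_available.1 he
    induction e with
    | _ a b =>
      have hm : ∀ x ∈ s(a, b), x ∈ unsat S G ∪ S := by
        intro x hx
        by_cases hb : x ∈ S
        · exact Finset.mem_union_right _ hb
        · exact Finset.mem_union_left _ (mem_unsat.2 ⟨hb, he'.2.2 x hx⟩)
      rw [Finset.mem_image]
      refine ⟨(a, b), ?_, rfl⟩
      rw [Finset.mem_product]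
      exact ⟨hm a (Sym2.mem_mk_left a b), hm b (Sym2.mem_mk_right a b)⟩
  have h1 := Finset.card_le_card hsub
  have h3 : (((unsat S G ∪ S) ×ˢ (unsat S G ∪ S)).image (fun p : V × V => s(p.1, p.2))).card ≤
      ((unsat S G ∪ S) ×ˢ (unsat S G ∪ S)).card := Finset.card_image_le
  rw [Finset.card_product] at h3
  have h4 := Finset.card_union_le (unsat S G) S
  rw [hS] at h4
  calc (available 3 G).card ≤ (unsat S G ∪ S).card * (unsat S G ∪ S).card := h1.trans h3
    _ ≤ ((unsat S G).card + 4) * ((unsat S G).card + 4) := Nat.mul_le_mul h4 h4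
    _ = _ := by ring

theorem card_avS_incident (S : Finset V) (G : SimpleGraph V) {v : V} (hv : v ∈ unsat S G) :
    (unsat S G).card ≤ ((avS S G).filter (fun e => v ∈ e)).card + 3 := by
  obtain ⟨hvS, hv3⟩ := mem_unsat.1 hv
  have h1 : (unsat S G \ insert v (G.neighborFinset v)).card ≤
      ((avS S G).filter (fun e => v ∈ e)).card := by
    apply Finset.card_le_card_of_injOn (fun w => s(v, w))
    · intro w hw
      have hw' := Finset.mem_sdiff.1 (Finset.mem_coe.1 hw)
      obtain ⟨hwS, hw3⟩ := mem_unsat.1 hw'.1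
      have hwv : w ≠ v := fun h => hw'.2 (h ▸ Finset.mem_insert_self _ _)
      have hnadj : ¬ G.Adj v w := fun h => hw'.2 (Finset.mem_insert_of_mem
        ((SimpleGraph.mem_neighborFinset _ _ _).2 h))
      rw [Finset.mem_coe, Finset.mem_filter]
      refine ⟨mem_avS.2 ⟨⟨?_, ?_, ?_⟩, ?_⟩, Sym2.mem_mk_left v w⟩
      · simpa using hwv.symm
      · simpa using hnadj
      · intro x hx
        rcases Sym2.mem_iff.1 hx with rfl | rfl
        · exact hv3
        · exact hw3
      · intro x hxS hx
        rcases Sym2.mem_iff.1 hx with rfl | rfl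
        · exact hvS hxS
        · exact hwS hxS
    · intro a _ b _ hab
      exact Sym2.congr_right.1 hab
  have h2 := Finset.le_card_sdiff (insert v (G.neighborFinset v)) (unsat S G)
  have h3 := Finset.card_insert_le v (G.neighborFinset v)
  rw [SimpleGraph.card_neighborFinset_eq_degree] at h3
  omega

/-- The drift estimate. -/
theorem drift (r : ℝ) (hr : 1 ≤ r) (S : Finset V) (G : SimpleGraph V)
    (hU : 3 ≤ (unsat S G).card) :
    (((unsat S G).card : ℝ) - 3) * ((1 - 1 / r) * Psi r S G) ≤
      ∑ e ∈ avS S G, (Psi r S G - Psi r S (addEdge G e)) := by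
  have h1 : ∑ e ∈ avS S G, (Psi r S G - Psi r S (addEdge G e)) =
      ∑ v ∈ Finset.univ.filter (fun v => v ∉ S),
        (((avS S G).filter (fun e => v ∈ e)).card : ℝ) *
          (wt r (G.degree v) - wt r (G.degree v + 1)) := by
    rw [Finset.sum_congr rfl (fun e he => Psi_addEdge r S G (mem_avS.1 he).1),
      Finset.sum_comm]
    apply Finset.sum_congr rfl
    intro v _
    rw [← Finset.sum_filter, Finset.sum_const, nsmul_eq_mul]
  rw [h1, Psi, Finset.mul_sum, Finset.mul_sum]
  apply Finset.sum_le_sum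
  intro v hv
  have hvS : v ∉ S := by simpa using hv
  by_cases h3 : G.degree v < 3
  · have hmem : v ∈ unsat S G := mem_unsat.2 ⟨hvS, h3⟩
    have hc := card_avS_incident S G hmem
    have hc' : ((unsat S G).card : ℝ) - 3 ≤ (((avS S G).filter (fun e => v ∈ e)).card : ℝ) := by
      have : ((unsat S G).card : ℝ) ≤ (((avS S G).filter (fun e => v ∈ e)).card : ℝ) + 3 := by
        exact_mod_cast hc
      linarith
    have hd := wt_drop hr h3
    have hd0 := wt_drop_nonneg hr (G.degree v)
    have hU' : (0 : ℝ) ≤ ((unsat S G).card : ℝ) - 3 := by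
      have : (3 : ℝ) ≤ ((unsat S G).card : ℝ) := by exact_mod_cast hU
      linarith
    calc (((unsat S G).card : ℝ) - 3) * ((1 - 1 / r) * wt r (G.degree v))
        ≤ (((unsat S G).card : ℝ) - 3) * (wt r (G.degree v) - wt r (G.degree v + 1)) :=
          mul_le_mul_of_nonneg_left hd hU'
      _ ≤ _ := mul_le_mul_of_nonneg_right hc' hd0
  · have hd3 : 3 ≤ G.degree v := by omega
    rw [wt_three r hd3, wt_three r (by omega)]
    simp

theorem dS_addEdge (S : Finset V) (G : SimpleGraph V) {e : Sym2 V} (h : e ∈ avS S G) :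
    dS S (addEdge G e) + 2 = dS S G := by
  obtain ⟨h1, h2⟩ := mem_avS.1 h
  have hsum : (∑ v ∈ Finset.univ.filter (fun v => v ∉ S), if v ∈ e then 1 else 0) = 2 := by
    rw [← sum_mem_sym2 e h1.1]
    apply Finset.sum_subset (Finset.filter_subset _ _)
    intro v _ hv
    simp only [Finset.mem_filter, Finset.mem_univ, true_and, not_not] at hv
    rw [if_neg (h2 v hv)]
  unfold dS
  rw [← hsum, ← Finset.sum_add_distrib]
  apply Finset.sum_congr rfl
  intro v _
  rw [degree_addEdge G e h1.1 h1.2.1]
  split_ifs with hv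
  · have := h1.2.2 v hv
    omega
  · omega

theorem dS_le (S : Finset V) (G : SimpleGraph V) : dS S G ≤ 3 * (unsat S G).card := by
  have h1 : dS S G = ∑ v ∈ unsat S G, (3 - G.degree v) := by
    unfold dS
    symm
    apply Finset.sum_subset
    · intro v hv
      simp only [Finset.mem_filter, Finset.mem_univ, true_and]
      exact (mem_unsat.1 hv).1
    · intro v hv hv2
      simp only [Finset.mem_filter, Finset.mem_univ, true_and] at hv
      have : ¬ (G.degree v < 3) := fun h => hv2 (mem_unsat.2 ⟨hv, h⟩)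
      omega
  rw [h1]
  calc ∑ v ∈ unsat S G, (3 - G.degree v) ≤ ∑ _v ∈ unsat S G, 3 :=
        Finset.sum_le_sum (fun v _ => by omega)
    _ = 3 * (unsat S G).card := by rw [Finset.sum_const, smul_eq_mul, mul_comm]

theorem unsat_addEdge_subset (S : Finset V) (G : SimpleGraph V) {e : Sym2 V}
    (h : IsAvailable 3 G e) : unsat S (addEdge G e) ⊆ unsat S G := by
  intro v hv
  obtain ⟨h1, h2⟩ := mem_unsat.1 hv
  rw [degree_addEdge G e h.1 h.2.1] at h2
  exact mem_unsat.2 ⟨h1, by omega⟩

theorem card_unsat_addEdge (S : Finset V) (G : SimpleGraph V) {e : Sym2 V}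
    (h : IsAvailable 3 G e) : (unsat S G).card ≤ (unsat S (addEdge G e)).card + 2 := by
  have hsub : unsat S G ⊆ unsat S (addEdge G e) ∪ Finset.univ.filter (fun v => v ∈ e) := by
    intro v hv
    obtain ⟨h1, h2⟩ := mem_unsat.1 hv
    by_cases hve : v ∈ e
    · apply Finset.mem_union_right
      simp [hve]
    · apply Finset.mem_union_left
      apply mem_unsat.2
      refine ⟨h1, ?_⟩
      rw [degree_addEdge G e h.1 h.2.1, if_neg hve]
      exact h2
  have h1 := Finset.card_le_card hsub
  have h2 := Finset.card_union_le (unsat S (addEdge G e)) (Finset.univ.filter (fun v => v ∈ e))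
  have h3 : (Finset.univ.filter (fun v => v ∈ e)).card = 2 := by
    rw [← sum_mem_sym2 e h.1, Finset.card_filter]
  omega

theorem card_le_Psi {r : ℝ} (hr : 1 ≤ r) (S : Finset V) (G : SimpleGraph V) :
    ((unsat S G).card : ℝ) ≤ Psi r S G := by
  have h1 : ((unsat S G).card : ℝ) = ∑ _v ∈ unsat S G, (1 : ℝ) := by
    rw [Finset.sum_const, nsmul_eq_mul, mul_one]
  rw [h1]
  calc ∑ _v ∈ unsat S G, (1 : ℝ) ≤ ∑ v ∈ unsat S G, wt r (G.degree v) :=
        Finset.sum_le_sum (fun v hv => one_le_wt hr (mem_unsat.1 hv).2)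
    _ ≤ Psi r S G := by
        unfold Psi
        apply Finset.sum_le_sum_of_subset_of_nonneg
        · intro v hv
          simp only [Finset.mem_filter, Finset.mem_univ, true_and]
          exact (mem_unsat.1 hv).1
        · intro v _ _
          exact wt_nonneg hr _

/-- Tangent line inequality for the power `-β`. -/
theorem tangent {β x y : ℝ} (hβ : 0 ≤ β) (hx : 0 < x) (hy : 0 < y) :
    x ^ (-β) * (1 + β * (x - y) / x) ≤ y ^ (-β) := by
  have h1 : Real.log (y / x) ≤ y / x - 1 := Real.log_le_sub_one_of_pos (div_pos hy hx)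
  have h2 : 1 + β * (x - y) / x ≤ (y / x) ^ (-β) := by
    rw [Real.rpow_def_of_pos (div_pos hy hx)]
    have h3 := Real.add_one_le_exp (Real.log (y / x) * -β)
    have h4 : β * (x - y) / x = β * (1 - y / x) := by
      field_simp
    rw [h4]
    nlinarith
  have h5 : y ^ (-β) = x ^ (-β) * (y / x) ^ (-β) := by
    rw [← Real.mul_rpow hx.le (div_pos hy hx).le]
    congr 1
    field_simp
  rw [h5]
  exact mul_le_mul_of_nonneg_left h2 (Real.rpow_nonneg hx.le _)

theorem exists_step_of_completable (S : Finset V) (G : SimpleGraph V) (hc : Completable S G)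
    (hU : (unsat S G).Nonempty) : ∃ e ∈ avS S G, Completable S (addEdge G e) := by
  obtain ⟨H, hGH, hH3, hH0⟩ := hc
  obtain ⟨v, hv⟩ := hU
  obtain ⟨hvS, hv3⟩ := mem_unsat.1 hv
  obtain ⟨y, hvy, hvyG⟩ : ∃ y, H.Adj v y ∧ ¬ G.Adj v y := by
    by_contra hcon
    push Not at hcon
    have hle : H.neighborFinset v ⊆ G.neighborFinset v := by
      intro y hy
      rw [SimpleGraph.mem_neighborFinset] at hy ⊢
      exact hcon y hy
    have := Finset.card_le_card hle
    rw [SimpleGraph.card_neighborFinset_eq_degree, SimpleGraph.card_neighborFinset_eq_degree,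
      hH3 v hvS] at this
    omega
  have hyS : y ∉ S := by
    intro hy
    have := degree_pos_of_adj hvy.symm
    rw [hH0 y hy] at this
    exact absurd this (lt_irrefl _)
  have hy3 : G.degree y < 3 := by
    have hlt : (G.neighborFinset y).card < (H.neighborFinset y).card := by
      apply Finset.card_lt_card
      rw [Finset.ssubset_iff_of_subset]
      · refine ⟨v, (SimpleGraph.mem_neighborFinset _ _ _).2 hvy.symm, ?_⟩
        rw [SimpleGraph.mem_neighborFinset]
        exact fun h => hvyG h.symm
      · intro z hz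
        rw [SimpleGraph.mem_neighborFinset] at hz ⊢
        exact hGH hz
    rw [SimpleGraph.card_neighborFinset_eq_degree, SimpleGraph.card_neighborFinset_eq_degree,
      hH3 y hyS] at hlt
    exact hlt
  refine ⟨s(v, y), mem_avS.2 ⟨⟨?_, ?_, ?_⟩, ?_⟩, ?_⟩
  · simpa using hvy.ne
  · simpa using hvyG
  · intro x hx
    rcases Sym2.mem_iff.1 hx with rfl | rfl
    · exact hv3
    · exact hy3
  · intro x hxS hx
    rcases Sym2.mem_iff.1 hx with rfl | rfl
    · exact hvS hxS
    · exact hyS hxS
  · refine ⟨H, ?_, hH3, hH0⟩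
    intro a b hab
    rcases (addEdge_adj G _ a b).1 hab with h | ⟨h, _⟩
    · exact hGH h
    · rcases Sym2.eq_iff.1 h with ⟨rfl, rfl⟩ | ⟨rfl, rfl⟩
      · exact hvy
      · exact hvy.symm

theorem phi_nonneg {r β q c : ℝ} (hr : 1 ≤ r) (hq : 0 ≤ q) (hc : 0 ≤ c) (K : ℕ) (S : Finset V)
    (G : SimpleGraph V) : 0 ≤ phi r β q c K S G := by
  unfold phi
  split_ifs
  · apply mul_nonneg hc
    apply Real.rpow_nonneg
    exact le_trans (Nat.cast_nonneg _) (card_le_Psi hr S G)
  · positivity
  · exact le_rfl

/-- `phi` is a subsolution. -/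
theorem phi_sub {r β q c : ℝ} {K : ℕ} (hr : 1 ≤ r) (hβ : 0 ≤ β) (hq0 : 0 < q)
    (hq : q * ((K : ℝ) + 4) ^ 2 ≤ 1) (hc0 : 0 ≤ c) (hc : c ≤ q ^ (3 * K)) (hK : 16 ≤ K)
    (hβK : ∀ U : ℕ, K ≤ U → 4 * (U : ℝ) + 16 ≤ β * (1 - 1 / r) * ((U : ℝ) - 3))
    (hV : Even (Fintype.card V)) (S : Finset V) (hS : S.card = 4)
    (G : SimpleGraph V) (hG : ∀ v, G.degree v ≤ 3) (hiso : ∀ v ∈ S, G.degree v = 0)
    (hU : (unsat S G).Nonempty) :
    ((available 3 G).card : ℝ) * phi r β q c K S G ≤
      ∑ e ∈ avS S G, phi r β q c K S (addEdge G e) := by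
  have hq1 : q ≤ 1 := by
    have : (1 : ℝ) ≤ ((K : ℝ) + 4) ^ 2 := by
      have : (0 : ℝ) ≤ K := Nat.cast_nonneg K
      nlinarith
    nlinarith
  by_cases hKU : K ≤ (unsat S G).card
  · have hphi : phi r β q c K S G = c * (Psi r S G) ^ (-β) := by
      unfold phi
      rw [if_pos hKU]
    set x := Psi r S G with hx
    have hx1 : (16 : ℝ) ≤ x := by
      have h1 := card_le_Psi hr S G
      have h2 : (16 : ℝ) ≤ ((unsat S G).card : ℝ) := by exact_mod_cast hK.trans hKU
      linarith
    have hx0 : 0 < x := by linarith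
    have hlow : ∀ e ∈ avS S G, c * (x ^ (-β) * (1 + β * (x - Psi r S (addEdge G e)) / x)) ≤
        phi r β q c K S (addEdge G e) := by
      intro e he
      obtain ⟨he1, he2⟩ := mem_avS.1 he
      have hU1 := card_unsat_addEdge S G he1
      have hU2 : 14 ≤ (unsat S (addEdge G e)).card := by omega
      have hy1 : (1 : ℝ) ≤ Psi r S (addEdge G e) := by
        have h1 := card_le_Psi hr S (addEdge G e)
        have h2 : (14 : ℝ) ≤ ((unsat S (addEdge G e)).card : ℝ) := by exact_mod_cast hU2
        linarith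
      have ht := tangent hβ hx0 (lt_of_lt_of_le one_pos hy1)
      refine (mul_le_mul_of_nonneg_left ht hc0).trans ?_
      unfold phi
      split_ifs with h1 h2
      · exact le_rfl
      · have h3 : (Psi r S (addEdge G e)) ^ (-β) ≤ 1 := by
          apply Real.rpow_le_one_of_one_le_of_nonpos hy1
          linarith
        have h4 : q ^ (3 * K) ≤ q ^ (dS S (addEdge G e)) := by
          apply pow_le_pow_of_le_one hq0.le hq1
          have := dS_le S (addEdge G e)
          omega
        calc c * (Psi r S (addEdge G e)) ^ (-β) ≤ c * 1 := mul_le_mul_of_nonneg_left h3 hc0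
          _ = c := mul_one c
          _ ≤ _ := hc.trans h4
      · exfalso
        apply h2
        apply completable_of_large S hS hV _ (degree_le_addEdge hG he1) _ hU2
        intro v hv
        rw [degree_addEdge G e he1.1 he1.2.1, if_neg (he2 v hv), add_zero]
        exact hiso v hv
    refine le_trans ?_ (Finset.sum_le_sum hlow)
    rw [hphi, ← Finset.mul_sum, ← Finset.mul_sum, Finset.sum_add_distrib, Finset.sum_const,
      nsmul_eq_mul, mul_one]
    have hdr := drift r hr S G (by omega)
    rw [← hx] at hdr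
    have hsum : ∑ e ∈ avS S G, β * (x - Psi r S (addEdge G e)) / x =
        β / x * ∑ e ∈ avS S G, (x - Psi r S (addEdge G e)) := by
      rw [Finset.mul_sum]
      apply Finset.sum_congr rfl
      intro e _
      ring
    rw [hsum]
    have h5 : β * (1 - 1 / r) * (((unsat S G).card : ℝ) - 3) ≤
        β / x * ∑ e ∈ avS S G, (x - Psi r S (addEdge G e)) := by
      have h6 := mul_le_mul_of_nonneg_left hdr (div_nonneg hβ hx0.le)
      refine le_trans (le_of_eq ?_) h6
      field_simp
    have h7 := hβK _ hKU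
    have h8 : ((available 3 G).card : ℝ) ≤
        ((avS S G).card : ℝ) + (4 * ((unsat S G).card : ℝ) + 16) := by
      exact_mod_cast card_available_le S hS G
    have h9 : ((available 3 G).card : ℝ) ≤ ((avS S G).card : ℝ) +
        β / x * ∑ e ∈ avS S G, (x - Psi r S (addEdge G e)) := by linarith
    have h10 : 0 ≤ c * x ^ (-β) := mul_nonneg hc0 (Real.rpow_nonneg hx0.le _)
    calc ((available 3 G).card : ℝ) * (c * x ^ (-β))
        ≤ (((avS S G).card : ℝ) + β / x * ∑ e ∈ avS S G, (x - Psi r S (addEdge G e))) *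
          (c * x ^ (-β)) := mul_le_mul_of_nonneg_right h9 h10
      _ = _ := by ring
  · by_cases hcomp : Completable S G
    · have hphi : phi r β q c K S G = q ^ (dS S G) := by
        unfold phi
        rw [if_neg hKU, if_pos hcomp]
      obtain ⟨e, he, hce⟩ := exists_step_of_completable S G hcomp hU
      have hsub := unsat_addEdge_subset S G (mem_avS.1 he).1
      have hcard := Finset.card_le_card hsub
      have hphi2 : phi r β q c K S (addEdge G e) = q ^ (dS S (addEdge G e)) := by
        unfold phi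
        rw [if_neg (by omega), if_pos hce]
      have hd := dS_addEdge S G he
      refine le_trans ?_ (Finset.single_le_sum (f := fun e => phi r β q c K S (addEdge G e))
        (fun e _ => phi_nonneg hr hq0.le hc0 K S _) he)
      show _ ≤ phi r β q c K S (addEdge G e)
      rw [hphi, hphi2, ← hd, pow_add]
      have h1 : ((available 3 G).card : ℝ) ≤ ((K : ℝ) + 4) ^ 2 := by
        have h2 := card_available_le' S hS G
        have h3 : ((unsat S G).card + 4) ^ 2 ≤ (K + 4) ^ 2 := by
          apply Nat.pow_le_pow_left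
          omega
        exact_mod_cast h2.trans h3
      have h4 : ((available 3 G).card : ℝ) * q ^ 2 ≤ 1 := by
        calc ((available 3 G).card : ℝ) * q ^ 2 ≤ ((K : ℝ) + 4) ^ 2 * q ^ 2 :=
              mul_le_mul_of_nonneg_right h1 (by positivity)
          _ = (q * ((K : ℝ) + 4) ^ 2) * q := by ring
          _ ≤ 1 * 1 := mul_le_mul hq hq1 hq0.le zero_le_one
          _ = 1 := one_mul 1
      calc ((available 3 G).card : ℝ) * (q ^ (dS S (addEdge G e)) * q ^ 2)
          = (((available 3 G).card : ℝ) * q ^ 2) * q ^ (dS S (addEdge G e)) := by ring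
        _ ≤ 1 * q ^ (dS S (addEdge G e)) :=
            mul_le_mul_of_nonneg_right h4 (by positivity)
        _ = _ := one_mul _
    · have hphi : phi r β q c K S G = 0 := by
        unfold phi
        rw [if_neg hKU, if_neg hcomp]
      rw [hphi, mul_zero]
      exact Finset.sum_nonneg (fun e _ => phi_nonneg hr hq0.le hc0 K S _)

end

end Pool.Agent.DProcess
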